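import Pool.Agent.Helper42.DB.Goals2

set_option autoImplicit false

/-! CONN: two trajectories with the same word are joined. -/

namespace Pool.Agent.Helper42.DB.PkCONN

open Set Filter Topology

variable {S : Sys}

lemma joined_symm {n : ℕ} {w : ℕ → S.ι} {z z' : ℕ → St S} (h : Joined n w z z') :
    Joined n w z' z := by
  obtain ⟨Z, h1, h2, h3⟩ := h
  have hmap : ∀ l ∈ Icc (0 : ℝ) 1, 1 - l ∈ Icc (0 : ℝ) 1 := by
    intro l hl
    exact ⟨by linarith [hl.2], by linarith [hl.1]⟩
  refine ⟨fun l => Z (1 - l), fun l hl => h1 _ (hmap l hl), ?_, ?_⟩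
  · intro k hk
    have := h2 k hk
    simp only [sub_zero, sub_self]
    exact ⟨this.2, this.1⟩
  · intro k hk
    obtain ⟨hF, hu, hth⟩ := h3 k hk
    refine ⟨⟨?_, ?_, ?_, ?_⟩, ?_, ?_⟩
    · intro l hl
      exact hF.arc _ (hmap l hl)
    · intro l hl
      exact hF.ok _ (hmap l hl)
    · exact hF.cu.comp (by fun_prop : Continuous fun l : ℝ => 1 - l).continuousOn hmap
    · exact hF.cφ.comp (by fun_prop : Continuous fun l : ℝ => 1 - l).continuousOn hmap
    · rcases hu with hu | hu
      · right
        intro a ha b hb hab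
        exact hu (hmap b hb) (hmap a ha) (by linarith)
      · left
        intro a ha b hb hab
        exact hu (hmap b hb) (hmap a ha) (by linarith)
    · intro hkn
      rcases hth hkn with hu | hu
      · right
        intro a ha b hb hab
        exact hu (hmap b hb) (hmap a ha) (by linarith)
      · left
        intro a ha b hb hab
        exact hu (hmap b hb) (hmap a ha) (by linarith)

lemma joined_const {n : ℕ} {w : ℕ → S.ι} {z z' : ℕ → St S} (hz : Cyl n w z)
    (h : ∀ k ≤ n, z k = z' k) : Joined n w z z' := by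
  refine ⟨fun _ => z, fun _ _ => hz, fun k hk => ⟨rfl, h k hk⟩, ?_⟩
  intro k hk
  refine ⟨⟨fun _ _ => hz.2 k hk, fun _ _ => hz.1.1 k hk, continuousOn_const,
    continuousOn_const⟩, Or.inl ?_, fun _ => Or.inl ?_⟩
  · exact monotone_const.monotoneOn _
  · exact monotone_const.monotoneOn _

lemma th_add_bk (x : St S) : x.th + x.bk = 2 * x.u := by
  unfold St.th St.bk; ring

theorem main_ind (hFLB : G_FLB S) (hLIFT : G_LIFT S) (hEXT : G_EXT S) (hCROSS : G_CROSS S)
    (hXFAM : G_XFAM S) (n : ℕ) (w : ℕ → S.ι) :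
    ∀ (r k : ℕ), k < n → n ≤ k + r → ∀ z z' : ℕ → St S, Cyl n w z → Cyl n w z' →
      ((z' k).u - (z k).u) * ((z' k).th - (z k).th) < 0 → Joined n w z z' := by
  intro r
  induction r with
  | zero =>
    intro k hk hn
    omega
  | succ r ih =>
    intro k hk hn
    -- the normalised case
    have key : ∀ z z' : ℕ → St S, Cyl n w z → Cyl n w z' → (z' k).u < (z k).u →
        (z k).th < (z' k).th → Joined n w z z' := by
      intro z z' hz hz' hu hth
      have hfl := hz.1.2 k hk
      have hfl' := hz'.1.2 k hk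
      have hik : (z k).i = w k := hz.2 k hk.le
      have hik' : (z' k).i = w k := hz'.2 k hk.le
      have hik1 : (z (k + 1)).i = w (k + 1) := hz.2 (k + 1) hk
      have hik1' : (z' (k + 1)).i = w (k + 1) := hz'.2 (k + 1) hk
      have hne : w k ≠ w (k + 1) := by
        rw [← hik, ← hik1]
        exact hFLB.1 _ _ hfl
      obtain ⟨η, c, kk, -, -, -, -, -, hL⟩ := hLIFT _ _ hne
      have hb := (hL _ _ hfl hik hik1).2
      have hb' := (hL _ _ hfl' hik' hik1').2
      have ht := th_add_bk (z (k + 1))
      have ht' := th_add_bk (z' (k + 1))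
      rcases lt_trichotomy (z' (k + 1)).u (z (k + 1)).u with h1 | h1 | h1
      · obtain ⟨X, hX, hX'⟩ := hCROSS _ _ _ _ hfl hfl' (hik.trans hik'.symm)
          (hik1.trans hik1'.symm) hu hth h1
        exact hXFAM n w z z' k X hk hz hz' hX hX' hu hth h1
      · refine hEXT n w z z' (k + 1) hk (by omega) hz hz' ?_ ?_
        · intro _
          refine ⟨by rw [h1]; simp, Or.inr ?_⟩
          intro h
          linarith
        · intro _
          refine ⟨by rw [h1]; simp, Or.inr ?_⟩
          intro h
          linarith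
      · have hA : 0 < k + 1 → 0 ≤ ((z' (k + 1)).u - (z (k + 1)).u) *
            ((z' (k + 1)).bk - (z (k + 1)).bk) ∧
            ((z' (k + 1)).u ≠ (z (k + 1)).u ∨ (z' (k + 1)).bk ≠ (z (k + 1)).bk) := by
          intro _
          refine ⟨mul_nonneg (by linarith) (by linarith), Or.inl h1.ne'⟩
        rcases Nat.lt_or_ge (k + 1) n with hkn | hkn
        · rcases le_or_gt 0 ((z' (k + 1)).th - (z (k + 1)).th) with h2 | h2
          · refine hEXT n w z z' (k + 1) hk (by omega) hz hz' ?_ hA
            intro _
            exact ⟨mul_nonneg (by linarith) h2, Or.inl h1.ne'⟩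
          · refine ih (k + 1) hkn (by omega) z z' hz hz' ?_
            exact mul_neg_of_pos_of_neg (by linarith) h2
        · refine hEXT n w z z' (k + 1) hk (by omega) hz hz' ?_ hA
          intro h
          omega
    intro z z' hz hz' hneg
    rcases mul_neg_iff.1 hneg with ⟨h1, h2⟩ | ⟨h1, h2⟩
    · exact joined_symm (key z' z hz' hz (by linarith) (by linarith))
    · exact key z z' hz hz' (by linarith) (by linarith)

theorem thm (S : Sys) : G_FLB S → G_LIFT S → G_EXT S → G_CROSS S → G_XFAM S → G_CONN S := by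
  intro hFLB hLIFT hEXT hCROSS hXFAM n w z z' hn hz hz'
  by_cases h0 : (z' 0).u = (z 0).u ∧ (z' 0).th = (z 0).th
  · have h00 : z 0 = z' 0 := by
      have hi : (z 0).i = (z' 0).i := (hz.2 0 hn.le).trans (hz'.2 0 hn.le).symm
      have hφ : (z 0).φ = (z' 0).φ := by
        have h1 := h0.2
        unfold St.th at h1
        linarith [h0.1]
      exact St.ext hi h0.1.symm hφ
    apply joined_const hz
    intro k
    induction k with
    | zero => intro _; exact h00
    | succ k ih =>
      intro hk
      have h1 := hz.1.2 k (by omega)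
      have h2 := hz'.1.2 k (by omega)
      rw [← ih (by omega)] at h2
      exact hFLB.2.2 _ _ _ h1 h2
  · have hne : (z' 0).u ≠ (z 0).u ∨ (z' 0).th ≠ (z 0).th := by
      by_contra hcon
      push Not at hcon
      exact h0 hcon
    rcases le_or_gt 0 (((z' 0).u - (z 0).u) * ((z' 0).th - (z 0).th)) with h1 | h1
    · refine hEXT n w z z' 0 (Nat.zero_le _) hn hz hz' (fun _ => ⟨h1, hne⟩) ?_
      intro h
      omega
    · exact main_ind hFLB hLIFT hEXT hCROSS hXFAM n w n 0 hn (by omega) z z' hz hz' h1

end Pool.Agent.Helper42.DB.PkCONN
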