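import Pool.Agent.Helper42.DB.Goals2

set_option autoImplicit false

/-! FOPEN: flights persist under small perturbations of the end points. -/

namespace Pool.Agent.Helper42.DB.PkFOPEN

open Set Filter Topology

variable {S : Sys}

/-- the angle of `D` near `α` -/
noncomputable def dirn (α : ℝ) (D : ℂ) : ℝ := α + Real.arcsin (cr (ee α) D / ‖D‖)

lemma dt_sq_add_cr_sq (α : ℝ) (D : ℂ) : dt (ee α) D ^ 2 + cr (ee α) D ^ 2 = ‖D‖ ^ 2 := by
  rw [norm_sq_eq]
  simp only [dt, cr, ee_re, ee_im]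
  have h := Real.sin_sq_add_cos_sq α
  have : (Real.cos α * D.re + Real.sin α * D.im) ^ 2 +
      (Real.cos α * D.im - Real.sin α * D.re) ^ 2 =
      (Real.sin α ^ 2 + Real.cos α ^ 2) * (D.re ^ 2 + D.im ^ 2) := by ring
  rw [this, h, one_mul]

lemma dirn_spec (α : ℝ) (D : ℂ) (h : 0 < dt (ee α) D) : D = ‖D‖ • ee (dirn α D) := by
  have hD : 0 < ‖D‖ := by
    rw [norm_pos_iff]
    rintro rfl
    simp at h
  have h1 := dt_sq_add_cr_sq α D
  have hcd : (dt (ee α) D / ‖D‖) ^ 2 + (cr (ee α) D / ‖D‖) ^ 2 = 1 := by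
    rw [div_pow, div_pow, ← add_div, h1, div_self (by positivity)]
  have hd : 0 < dt (ee α) D / ‖D‖ := div_pos h hD
  have hc1 : |cr (ee α) D / ‖D‖| ≤ 1 := by
    rw [← sq_le_one_iff_abs_le_one]
    nlinarith [sq_nonneg (dt (ee α) D / ‖D‖)]
  have hs : Real.sin (Real.arcsin (cr (ee α) D / ‖D‖)) = cr (ee α) D / ‖D‖ :=
    Real.sin_arcsin (abs_le.1 hc1).1 (abs_le.1 hc1).2
  have hco : Real.cos (Real.arcsin (cr (ee α) D / ‖D‖)) = dt (ee α) D / ‖D‖ := by
    rw [Real.cos_arcsin]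
    have : 1 - (cr (ee α) D / ‖D‖) ^ 2 = (dt (ee α) D / ‖D‖) ^ 2 := by linarith
    rw [this, Real.sqrt_sq hd.le]
  have h2 := Real.sin_sq_add_cos_sq α
  apply Complex.ext
  · rw [Complex.smul_re, smul_eq_mul, ee_re]
    unfold dirn
    rw [Real.cos_add, hs, hco]
    have : ‖D‖ * (Real.cos α * (dt (ee α) D / ‖D‖) - Real.sin α * (cr (ee α) D / ‖D‖)) =
        Real.cos α * dt (ee α) D - Real.sin α * cr (ee α) D := by
      field_simp
    rw [this]
    simp only [dt, cr, ee_re, ee_im]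
    linear_combination -h2 * D.re
  · rw [Complex.smul_im, smul_eq_mul, ee_im]
    unfold dirn
    rw [Real.sin_add, hs, hco]
    have : ‖D‖ * (Real.sin α * (dt (ee α) D / ‖D‖) + Real.cos α * (cr (ee α) D / ‖D‖)) =
        Real.sin α * dt (ee α) D + Real.cos α * cr (ee α) D := by
      field_simp
    rw [this]
    simp only [dt, cr, ee_re, ee_im]
    linear_combination -h2 * D.im

lemma dirn_smul (α t : ℝ) : dirn α (t • ee α) = α := by
  unfold dirn
  rw [cr_smul_right, cr_self]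
  simp

/-- rays which leave the arc transversally are in the table for a short time -/
lemma start_in (hARC : G_ARC S) (i : S.ι) (u0 : ℝ) (hu0 : u0 ∈ Ioo (S.a i) (S.b i)) :
    ∃ s1 : ℝ, 0 < s1 ∧ ∃ δ : ℝ, 0 < δ ∧ ∀ u θ : ℝ, |u - u0| < δ → u ∈ Ioo (S.a i) (S.b i) →
      |θ - u| < Real.pi / 2 → ∀ s : ℝ, 0 < s → s ≤ s1 → S.g i u + s • ee θ ∈ S.Y := by
  obtain ⟨ε1, hε1, hfr⟩ := S.front i u0 hu0
  have hc : ContinuousAt (S.g i) u0 := (S.crv i).continuous.continuousAt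
  obtain ⟨δ, hδ, hδc⟩ := Metric.continuousAt_iff.1 hc (ε1 / 2) (by positivity)
  refine ⟨ε1 / 4, by positivity, δ, hδ, ?_⟩
  intro u θ hu hui hθ s hs hs1
  have hball : S.g i u + s • ee θ ∈ Metric.ball ((S.crv i).G u0) ε1 := by
    rw [Metric.mem_ball, dist_eq_norm]
    have h1 : ‖S.g i u - (S.crv i).G u0‖ < ε1 / 2 := by
      rw [← dist_eq_norm]
      exact hδc (by rw [Real.dist_eq]; exact hu)
    have h2 : ‖s • ee θ‖ ≤ ε1 / 4 := by
      rw [norm_smul, norm_ee, mul_one, Real.norm_eq_abs, abs_of_pos hs]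
      exact hs1
    calc ‖S.g i u + s • ee θ - (S.crv i).G u0‖ = ‖(S.g i u - (S.crv i).G u0) + s • ee θ‖ := by
          congr 1; ring
      _ ≤ ‖S.g i u - (S.crv i).G u0‖ + ‖s • ee θ‖ := norm_add_le _ _
      _ < ε1 := by linarith
  rcases hfr _ hball with h | ⟨v, hv, s', hs', hz⟩
  · exact h
  · exfalso
    have h1 : dt (ee u) (S.g i u + s • ee θ - S.g i u) = s * Real.cos (θ - u) := by
      rw [add_sub_cancel_left, dt_smul_right, dt_ee_ee]
    have hcos : 0 < Real.cos (θ - u) :=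
      Real.cos_pos_of_mem_Ioo ⟨by have := (abs_lt.1 hθ).1; linarith, (abs_lt.1 hθ).2⟩
    have hvK : S.g i v ∈ S.K i := subset_convexHull ℝ _ ⟨v, hv, rfl⟩
    have h2 := (hARC i).2.2.2 u ⟨hui.1.le, hui.2.le⟩ (S.g i v) hvK
    have hκ := (hARC i).1
    have h3 : 0 ≤ dt (ee u) (S.g i u - S.g i v) := le_trans (by positivity) h2
    have h4 : 0 < Real.cos (v - u) := by
      apply Real.cos_pos_of_mem_Ioo
      have ht := S.turn i
      have hp := Real.pi_gt_three
      constructor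
      · linarith [hv.1, hui.2]
      · linarith [hv.2, hui.1]
    have h5 : dt (ee u) (S.g i u + s • ee θ - S.g i u) =
        -dt (ee u) (S.g i u - S.g i v) - s' * Real.cos (v - u) := by
      rw [hz, ← dt_ee_ee, ← dt_smul_right, ← dt_neg_right, ← dt_sub_right]
      congr 1
      simp only [Sys.g]
      ring
    have h6 : 0 < s * Real.cos (θ - u) := mul_pos hs hcos
    have h7 : 0 ≤ s' * Real.cos (v - u) := mul_nonneg hs' h4.le
    linarith

theorem thm (S : Sys) : G_ARC S → G_FOPEN S := by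
  intro hARC x y ε hxy hε
  obtain ⟨hx, hy, hee, t0, ht0, hpos, hseg⟩ := hxy
  set kk : ℝ := y.bk - x.th with hkk
  have hcoskk : Real.cos kk = -1 := by
    have h1 : dt (ee x.th) (ee y.bk) = Real.cos kk := dt_ee_ee _ _
    have h2 : ee y.bk = -ee x.th := by rw [hee, neg_neg]
    rw [← h1, h2, dt_neg_right, dt_self, norm_ee]; norm_num
  have heekk : ∀ θ : ℝ, ee θ = -ee (θ + kk) := by
    intro θ
    have hsin : Real.sin kk = 0 := by
      have := Real.sin_sq_add_cos_sq kk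
      rw [hcoskk] at this
      nlinarith
    apply Complex.ext
    · simp only [ee_re, Complex.neg_re, Real.cos_add, hcoskk, hsin]; ring
    · simp only [ee_im, Complex.neg_im, Real.sin_add, hcoskk, hsin]; ring
  -- data
  obtain ⟨s1, hs1, δ1, hδ1, hst⟩ := start_in hARC x.i x.u hx.1
  obtain ⟨s2, hs2, δ2, hδ2, hen⟩ := start_in hARC y.i y.u hy.1
  let D : ℝ × ℝ → ℂ := fun p => S.g y.i p.2 - S.g x.i p.1
  let Θ : ℝ × ℝ → ℝ := fun p => dirn x.th (D p)
  have hDc : Continuous D :=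
    ((S.crv y.i).continuous.comp continuous_snd).sub ((S.crv x.i).continuous.comp continuous_fst)
  have hD0 : D (x.u, y.u) = t0 • ee x.th := by
    change y.pos - x.pos = _
    rw [hpos]; ring
  have hnD0 : ‖D (x.u, y.u)‖ = t0 := by
    rw [hD0, norm_smul, norm_ee, mul_one, Real.norm_eq_abs, abs_of_pos ht0]
  have hΘ0 : Θ (x.u, y.u) = x.th := by
    change dirn x.th (D (x.u, y.u)) = _
    rw [hD0, dirn_smul]
  have hΘc : ContinuousAt Θ (x.u, y.u) := by
    change ContinuousAt (fun p => x.th + Real.arcsin (cr (ee x.th) (D p) / ‖D p‖)) (x.u, y.u)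
    apply ContinuousAt.add continuousAt_const
    apply ContinuousAt.comp Real.continuous_arcsin.continuousAt
    apply ContinuousAt.div
    · exact (continuous_cr continuous_const hDc).continuousAt
    · exact hDc.norm.continuousAt
    · rw [hnD0]; exact ht0.ne'
  -- eventually statements
  have e1 : ∀ᶠ p : ℝ × ℝ in 𝓝 (x.u, y.u), 0 < dt (ee x.th) (D p) := by
    have h0 : 0 < dt (ee x.th) (D (x.u, y.u)) := by
      rw [hD0, dt_smul_right, dt_self, norm_ee]; simpa using ht0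
    exact ((continuous_dt continuous_const hDc).continuousAt).eventually (lt_mem_nhds h0)
  have e2 : ∀ᶠ p : ℝ × ℝ in 𝓝 (x.u, y.u), ‖D p‖ < t0 + s2 / 2 := by
    have h0 : ‖D (x.u, y.u)‖ < t0 + s2 / 2 := by rw [hnD0]; linarith
    exact (hDc.norm.continuousAt).eventually (gt_mem_nhds h0)
  have e3 : ∀ η : ℝ, 0 < η → ∀ᶠ p : ℝ × ℝ in 𝓝 (x.u, y.u), |Θ p - p.1 - x.φ| < η := by
    intro η hη
    have hc : ContinuousAt (fun p : ℝ × ℝ => |Θ p - p.1 - x.φ|) (x.u, y.u) :=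
      ((hΘc.sub continuousAt_fst).sub continuousAt_const).abs
    have h0 : |Θ (x.u, y.u) - x.u - x.φ| < η := by
      rw [hΘ0]
      have : x.th - x.u - x.φ = 0 := by unfold St.th; ring
      rw [this, abs_zero]; exact hη
    exact hc.eventually (gt_mem_nhds h0)
  have e4 : ∀ η : ℝ, 0 < η → ∀ᶠ p : ℝ × ℝ in 𝓝 (x.u, y.u),
      |p.2 - (Θ p + kk) - y.φ| < η := by
    intro η hη
    have hc : ContinuousAt (fun p : ℝ × ℝ => |p.2 - (Θ p + kk) - y.φ|) (x.u, y.u) :=
      ((continuousAt_snd.sub (hΘc.add continuousAt_const)).sub continuousAt_const).abs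
    have h0 : |y.u - (Θ (x.u, y.u) + kk) - y.φ| < η := by
      rw [hΘ0, hkk]
      have : y.u - (x.th + (y.bk - x.th)) - y.φ = 0 := by unfold St.bk; ring
      rw [this, abs_zero]; exact hη
    exact hc.eventually (gt_mem_nhds h0)
  have e5 : ∀ᶠ p : ℝ × ℝ in 𝓝 (x.u, y.u), ∀ s ∈ Icc s1 (t0 - s2 / 2),
      S.g x.i p.1 + s • ee (Θ p) ∈ S.Y := by
    apply IsCompact.eventually_forall_of_forall_eventually isCompact_Icc
    intro s hs
    have hc : ContinuousAt (fun z : (ℝ × ℝ) × ℝ => S.g x.i z.1.1 + z.2 • ee (Θ z.1))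
        ((x.u, y.u), s) := by
      apply ContinuousAt.add
      · exact (S.crv x.i).continuous.continuousAt.comp
          (continuousAt_fst.comp continuousAt_fst)
      · apply ContinuousAt.smul continuousAt_snd
        apply continuous_ee.continuousAt.comp
        exact ContinuousAt.comp (f := fun z : (ℝ × ℝ) × ℝ => z.1) (x := ((x.u, y.u), s))
          hΘc continuousAt_fst
    have hmem : S.g x.i x.u + s • ee (Θ (x.u, y.u)) ∈ S.Y := by
      rw [hΘ0]
      exact hseg s ⟨lt_of_lt_of_le hs1 hs.1, by linarith [hs.2]⟩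
    exact hc.eventually (S.isOpen_Y.mem_nhds hmem)
  have e6 : ∀ᶠ p : ℝ × ℝ in 𝓝 (x.u, y.u), p.1 ∈ Ioo (S.a x.i) (S.b x.i) ∧
      p.2 ∈ Ioo (S.a y.i) (S.b y.i) := by
    have h1 : ∀ᶠ p : ℝ × ℝ in 𝓝 (x.u, y.u), p.1 ∈ Ioo (S.a x.i) (S.b x.i) :=
      continuousAt_fst.eventually (isOpen_Ioo.mem_nhds hx.1)
    have h2 : ∀ᶠ p : ℝ × ℝ in 𝓝 (x.u, y.u), p.2 ∈ Ioo (S.a y.i) (S.b y.i) :=
      continuousAt_snd.eventually (isOpen_Ioo.mem_nhds hy.1)
    exact h1.and h2
  have e7 : ∀ᶠ p : ℝ × ℝ in 𝓝 (x.u, y.u), |p.1 - x.u| < δ1 ∧ |p.2 - y.u| < δ2 := by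
    have h1 : ∀ᶠ p : ℝ × ℝ in 𝓝 (x.u, y.u), |p.1 - x.u| < δ1 := by
      have hc : ContinuousAt (fun p : ℝ × ℝ => |p.1 - x.u|) (x.u, y.u) :=
        (continuousAt_fst.sub continuousAt_const).abs
      exact hc.eventually (gt_mem_nhds (by simpa using hδ1))
    have h2 : ∀ᶠ p : ℝ × ℝ in 𝓝 (x.u, y.u), |p.2 - y.u| < δ2 := by
      have hc : ContinuousAt (fun p : ℝ × ℝ => |p.2 - y.u|) (x.u, y.u) :=
        (continuousAt_snd.sub continuousAt_const).abs
      exact hc.eventually (gt_mem_nhds (by simpa using hδ2))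
    exact h1.and h2
  have hmx : 0 < min ε (Real.pi / 2 - |x.φ|) := lt_min hε (by linarith [hx.2])
  have hmy : 0 < min ε (Real.pi / 2 - |y.φ|) := lt_min hε (by linarith [hy.2])
  have eall := (e1.and (e2.and ((e3 _ hmx).and ((e4 _ hmy).and (e5.and (e6.and e7))))))
  obtain ⟨δ, hδ, hall⟩ := Metric.eventually_nhds_iff.1 eall
  refine ⟨δ, hδ, ?_⟩
  intro u v hu hv
  have hdist : dist ((u, v) : ℝ × ℝ) (x.u, y.u) < δ := by
    rw [Prod.dist_eq, max_lt_iff, Real.dist_eq, Real.dist_eq]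
    exact ⟨hu, hv⟩
  obtain ⟨a1, a2, a3, a4, a5, ⟨a6, a6'⟩, a7, a7'⟩ := hall hdist
  have hφ : |Θ (u, v) - u| < Real.pi / 2 := by
    have h := lt_of_lt_of_le a3 (min_le_right _ _)
    have h1 := abs_lt.1 h
    have h2 := abs_le.1 (le_refl |x.φ|)
    rw [abs_lt]
    constructor
    · simp only at h1; linarith [h1.1, h2.1]
    · simp only at h1; linarith [h1.2, h2.2]
  have hψ : |v - (Θ (u, v) + kk)| < Real.pi / 2 := by
    have h := lt_of_lt_of_le a4 (min_le_right _ _)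
    have h1 := abs_lt.1 h
    have h2 := abs_le.1 (le_refl |y.φ|)
    rw [abs_lt]
    constructor
    · simp only at h1; linarith [h1.1, h2.1]
    · simp only at h1; linarith [h1.2, h2.2]
  refine ⟨Θ (u, v) - u, v - (Θ (u, v) + kk), lt_of_lt_of_le a3 (min_le_left _ _),
    lt_of_lt_of_le a4 (min_le_left _ _), ⟨a6, hφ⟩, ⟨a6', hψ⟩, ?_, ‖D (u, v)‖, ?_, ?_, ?_⟩
  · have h1 : (⟨x.i, u, Θ (u, v) - u⟩ : St S).th = Θ (u, v) := by unfold St.th; simp
    have h2 : (⟨y.i, v, v - (Θ (u, v) + kk)⟩ : St S).bk = Θ (u, v) + kk := by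
      unfold St.bk; simp
    rw [h1, h2]
    exact heekk _
  · rw [norm_pos_iff]
    intro h
    simp only [h] at a1
    simp at a1
  · have h1 : (⟨x.i, u, Θ (u, v) - u⟩ : St S).th = Θ (u, v) := by unfold St.th; simp
    rw [h1]
    change S.g y.i v = S.g x.i u + ‖D (u, v)‖ • ee (dirn x.th (D (u, v)))
    rw [← dirn_spec _ _ a1]
    change S.g y.i v = S.g x.i u + (S.g y.i v - S.g x.i u)
    ring
  · intro s hs
    have h1 : (⟨x.i, u, Θ (u, v) - u⟩ : St S).th = Θ (u, v) := by unfold St.th; simp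
    rw [h1]
    change S.g x.i u + s • ee (Θ (u, v)) ∈ S.Y
    by_cases hc1 : s ≤ s1
    · exact hst u (Θ (u, v)) a7 a6 hφ s hs.1 hc1
    by_cases hc2 : ‖D (u, v)‖ - s ≤ s2
    · have h3 := hen v (Θ (u, v) + kk) a7' a6' (by rw [abs_sub_comm]; exact hψ)
        (‖D (u, v)‖ - s) (by linarith [hs.2]) hc2
      have h4 : S.g y.i v + (‖D (u, v)‖ - s) • ee (Θ (u, v) + kk) =
          S.g x.i u + s • ee (Θ (u, v)) := by
        have h5 : S.g y.i v = S.g x.i u + ‖D (u, v)‖ • ee (Θ (u, v)) := by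
          change S.g y.i v = S.g x.i u + ‖D (u, v)‖ • ee (dirn x.th (D (u, v)))
          rw [← dirn_spec _ _ a1]
          change S.g y.i v = S.g x.i u + (S.g y.i v - S.g x.i u)
          ring
        have h6 : ee (Θ (u, v) + kk) = -ee (Θ (u, v)) := by
          rw [heekk (Θ (u, v)), neg_neg]
        rw [h6, h5]
        simp only [smul_neg, sub_smul]
        ring
      rw [← h4]
      exact h3
    · push Not at hc1 hc2
      exact a5 s ⟨hc1.le, by linarith⟩

end Pool.Agent.Helper42.DB.PkFOPEN
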