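import Pool.Agent.Helper42.DB.Goals3

set_option autoImplicit false

/-! GRU: uniqueness of trajectories between two tangential collisions. -/

namespace Pool.Agent.Helper42.DB.PkGRU

open Set Filter Topology

variable {S : Sys}

lemma th_add_bk (x : St S) : x.th + x.bk = 2 * x.u := by
  unfold St.th St.bk; ring

lemma aux (hO : G_ORDG S) (q : ℕ) (z z' : ℕ → St S) (hq : 0 < q)
    (h : ∀ k < q, FlG (z k) (z (k + 1))) (h' : ∀ k < q, FlG (z' k) (z' (k + 1)))
    (hi : ∀ k ≤ q, (z k).i = (z' k).i) (h0 : (z 0).φ = (z' 0).φ) (h1 : (z q).φ = (z' q).φ)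
    (hu : (z 0).u < (z' 0).u) : False := by
  have key : ∀ k, 0 < k → k ≤ q →
      ((z' k).u < (z k).u ∧ (z k).bk < (z' k).bk) ∨
      ((z k).u < (z' k).u ∧ (z' k).bk < (z k).bk) := by
    intro k
    induction k with
    | zero => intro hk; omega
    | succ k ih =>
      intro _ hk
      rcases Nat.eq_zero_or_pos k with hk0 | hk0
      · subst hk0
        have hth : (z 0).th < (z' 0).th := by
          unfold St.th; linarith
        have := hO _ _ _ _ (h 0 hq) (h' 0 hq) (hi 0 hq.le) (hi 1 hq) hu.le hth
        left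
        refine ⟨this.1, ?_⟩
        have h2 := this.2
        simp only [zero_add] at h2 ⊢
        linarith
      · have hk' : k < q := by omega
        have e1 := th_add_bk (z k)
        have e2 := th_add_bk (z' k)
        rcases ih hk0 hk'.le with ⟨a, b⟩ | ⟨a, b⟩
        · have := hO _ _ _ _ (h' k hk') (h k hk') (hi k hk'.le).symm (hi (k + 1) hk').symm
            a.le (by linarith)
          right
          exact ⟨this.1, by linarith [this.2]⟩
        · have := hO _ _ _ _ (h k hk') (h' k hk') (hi k hk'.le) (hi (k + 1) hk')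
            a.le (by linarith)
          left
          exact ⟨this.1, by linarith [this.2]⟩
  have hb : (z' q).bk - (z q).bk = (z' q).u - (z q).u := by
    unfold St.bk; rw [h1]; ring
  rcases key q hq le_rfl with ⟨a, b⟩ | ⟨a, b⟩ <;> linarith

theorem thm (S : Sys) : G_ORDG S → G_GRU S := by
  intro hO q z z' hq h h' hi h0 _ h1 _
  rcases lt_trichotomy (z 0).u (z' 0).u with hu | hu | hu
  · exact (aux hO q z z' hq h h' hi h0 h1 hu).elim
  · exact St.ext (hi 0 hq.le) hu h0
  · exact (aux hO q z' z hq h' h (fun k hk => (hi k hk).symm) h0.symm h1.symm hu).elim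

end Pool.Agent.Helper42.DB.PkGRU
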